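import Pool.Agent.Q239.MN.Core

/-!
# Every M-number is strongly matchable (MP_0a29ca_nt, Q1)
-/

namespace Pool.Agent.Results.MP_0a29ca_nt.AllMNumbers

open Finset Pool.Agent.Q239.MN

/-- There is a coprime matching from `A` to `B`: a bijection `ψ : A → B` with
`gcd(x, ψ(x)) = 1` for every `x ∈ A`. -/
def HasCoprimeMatching (A B : Finset ℕ) : Prop :=
  ∃ ψ : ℕ → ℕ, Set.BijOn ψ (A : Set ℕ) (B : Set ℕ) ∧ ∀ x ∈ A, Nat.gcd x (ψ x) = 1

/-- The set `{a, a + d, ..., a + (k-1) d}`. -/
def progression (a d k : ℕ) : Finset ℕ := (Finset.range k).image (fun j => a + j * d)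

/-- `n` is strongly matchable: for all integers `a, d ≥ 1` with `gcd(a,d) = 1` there is a
coprime matching from the set of divisors of `n` to the progression with first term `a`,
difference `d` and length the number of divisors of `n`. -/
def StronglyMatchable (n : ℕ) : Prop :=
  ∀ a d : ℕ, 1 ≤ a → 1 ≤ d → Nat.gcd a d = 1 →
    HasCoprimeMatching n.divisors (progression a d n.divisors.card)

/-- `n` is an M-number: a positive integer with `p^p ∤ n` for every prime `p`. -/
def MNumber (n : ℕ) : Prop := 0 < n ∧ ∀ p : ℕ, p.Prime → ¬ p ^ p ∣ n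

theorem result : ∀ n : ℕ, MNumber n → StronglyMatchable n := by
  classical
  rintro n ⟨hn, hM⟩ a d ha hd had
  have hn0 : n ≠ 0 := hn.ne'
  let m : n.primeFactors → ℕ := fun p => (p : ℕ)
  let b : n.primeFactors → ℕ := fun p => n.factorization (p : ℕ) + 1
  have hprime : ∀ p : n.primeFactors, Nat.Prime (p : ℕ) := fun p => Nat.prime_of_mem_primeFactors p.2
  have hm : Pairwise (fun i j : n.primeFactors => Nat.Coprime (m i) (m j)) := by
    intro i j hij
    exact (Nat.coprime_primes (hprime i) (hprime j)).2 (fun h => hij (Subtype.ext h))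
  have hbm : ∀ i, b i ≤ m i := by
    intro i
    by_contra hcon
    push Not at hcon
    have h1 : (i : ℕ) ≤ n.factorization (i : ℕ) := by
      show (i : ℕ) ≤ _
      have : (i : ℕ) < n.factorization (i : ℕ) + 1 := hcon
      omega
    exact hM i (hprime i) (((hprime i).pow_dvd_iff_le_factorization hn0).2 h1)
  have hb : ∀ i, 1 ≤ b i := fun i => Nat.succ_le_succ (Nat.zero_le _)
  let ζ : n.primeFactors → ℂ := fun p => Complex.exp (2 * Real.pi * Complex.I / (p : ℕ))
  have hζ : ∀ p, IsPrimitiveRoot (ζ p) (m p) :=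
    fun p => Complex.isPrimitiveRoot_exp _ (hprime p).ne_zero
  let θ : n.primeFactors → ℂ := fun p => if (p : ℕ) ∣ d then ζ p else ζ p ^ d
  let c : n.primeFactors → ℂ := fun p => ζ p ^ a
  have hθ : ∀ p, IsPrimitiveRoot (θ p) (m p) := by
    intro p
    by_cases hp : (p : ℕ) ∣ d
    · simpa [θ, hp] using hζ p
    · have : Nat.Coprime d (m p) := ((Nat.Prime.coprime_iff_not_dvd (hprime p)).2 hp).symm
      simpa [θ, hp] using (hζ p).pow_of_coprime d this
  have hc : ∀ p, c p ≠ 0 := fun p => pow_ne_zero _ ((hζ p).ne_zero (hprime p).ne_zero)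
  have hL : n.divisors.card = ∏ i, b i := by
    rw [Nat.card_divisors hn0]
    exact (Finset.prod_coe_sort n.primeFactors (fun p => n.factorization p + 1)).symm
  obtain ⟨σ, hσ⟩ := assign hm hbm hb hθ hc hL
  -- if p divides a + j d then the exponent is zero
  have hdiv : ∀ (j : Fin n.divisors.card) (p : n.primeFactors), (p : ℕ) ∣ a + (j : ℕ) * d →
      ((σ j) p : ℕ) = 0 := by
    intro j p hp
    apply hσ
    have hpd : ¬ (p : ℕ) ∣ d := by
      intro h
      have h1 : (p : ℕ) ∣ a := (Nat.dvd_add_left (Dvd.dvd.mul_left h _)).1 hp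
      have h2 : (p : ℕ) ∣ Nat.gcd a d := Nat.dvd_gcd h1 h
      rw [had] at h2
      exact (hprime p).one_lt.ne' (Nat.dvd_one.1 h2)
    show c p * θ p ^ (j : ℕ) = 1
    simp only [c, θ, hpd, if_false]
    rw [← pow_mul, ← pow_add, mul_comm d]
    exact ((hζ p).pow_eq_one_iff_dvd _).2 hp
  -- exponents of a divisor
  let g : ℕ → (∀ i : n.primeFactors, Fin (b i)) := fun x i =>
    ⟨min (x.factorization (i : ℕ)) (n.factorization (i : ℕ)),
      Nat.lt_succ_of_le (min_le_right _ _)⟩
  have hgval : ∀ x ∈ n.divisors, ∀ i : n.primeFactors, ((g x) i : ℕ) = x.factorization (i : ℕ) := by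
    intro x hx i
    have hxn : x ∣ n := Nat.dvd_of_mem_divisors hx
    have hx0 : x ≠ 0 := ne_zero_of_dvd_ne_zero hn0 hxn
    show min _ _ = _
    exact min_eq_left ((Nat.factorization_le_iff_dvd hx0 hn0).2 hxn _)
  have hginj : ∀ x ∈ n.divisors, ∀ y ∈ n.divisors, g x = g y → x = y := by
    intro x hx y hy hxy
    have hxn : x ∣ n := Nat.dvd_of_mem_divisors hx
    have hyn : y ∣ n := Nat.dvd_of_mem_divisors hy
    have hx0 : x ≠ 0 := ne_zero_of_dvd_ne_zero hn0 hxn
    have hy0 : y ≠ 0 := ne_zero_of_dvd_ne_zero hn0 hyn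
    apply Nat.eq_of_factorization_eq hx0 hy0
    intro p
    by_cases hp : p ∈ n.primeFactors
    · rw [← hgval x hx ⟨p, hp⟩, ← hgval y hy ⟨p, hp⟩, hxy]
    · have h0 : n.factorization p = 0 := by
        rw [← Finsupp.notMem_support_iff, Nat.support_factorization]
        exact hp
      have h1 := (Nat.factorization_le_iff_dvd hx0 hn0).2 hxn p
      have h2 := (Nat.factorization_le_iff_dvd hy0 hn0).2 hyn p
      omega
  let ψ : ℕ → ℕ := fun x => a + ((σ.symm (g x) : Fin _) : ℕ) * d
  have hmaps : ∀ x, ψ x ∈ progression a d n.divisors.card := by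
    intro x
    exact Finset.mem_image.2 ⟨_, Finset.mem_range.2 (σ.symm (g x)).2, rfl⟩
  have hinj : Set.InjOn ψ (n.divisors : Set ℕ) := by
    intro x hx y hy hxy
    have h1 : a + ((σ.symm (g x) : Fin _) : ℕ) * d = a + ((σ.symm (g y) : Fin _) : ℕ) * d := hxy
    have h2 : ((σ.symm (g x) : Fin _) : ℕ) = ((σ.symm (g y) : Fin _) : ℕ) :=
      Nat.eq_of_mul_eq_mul_right (by omega) (Nat.add_left_cancel h1)
    have h3 : g x = g y := σ.symm.injective (Fin.ext h2)
    exact hginj x hx y hy h3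
  refine ⟨ψ, ⟨fun x _ => hmaps x, hinj, ?_⟩, ?_⟩
  · apply Finset.surjOn_of_injOn_of_card_le ψ (fun x _ => hmaps x) hinj
    exact le_trans Finset.card_image_le (by simp)
  · intro x hx
    have hxn : x ∣ n := Nat.dvd_of_mem_divisors hx
    have hx0 : x ≠ 0 := ne_zero_of_dvd_ne_zero hn0 hxn
    by_contra hcon
    obtain ⟨p, hp, hpg⟩ := Nat.exists_prime_and_dvd hcon
    have hpx : p ∣ x := dvd_trans hpg (Nat.gcd_dvd_left _ _)
    have hpy : p ∣ ψ x := dvd_trans hpg (Nat.gcd_dvd_right _ _)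
    have hpn : p ∈ n.primeFactors := Nat.mem_primeFactors.2 ⟨hp, dvd_trans hpx hxn, hn0⟩
    have h1 := hdiv (σ.symm (g x)) ⟨p, hpn⟩ hpy
    rw [Equiv.apply_symm_apply, hgval x hx ⟨p, hpn⟩] at h1
    have h2 : 0 < x.factorization p := hp.factorization_pos_of_dvd hx0 hpx
    have h3 : x.factorization p = 0 := h1
    omega

end Pool.Agent.Results.MP_0a29ca_nt.AllMNumbers
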